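import Pool.Agent.Helper33.QU.Rings
import Pool.Agent.Helper33.CB.Retract
import Pool.Agent.Helper92.QU.Pt

/-! T-QUAD, piece P7c: the fibre product of the quadric bundles is dominated by the product of the
conic bundles. -/

set_option autoImplicit false

namespace Pool.Agent.Helper33.QU

open Matrix Pool.Agent.Helper49.QU Pool.Agent.Helper4.CB Pool.Agent.Helper65.CB
open AlgebraicGeometry CategoryTheory Pool.Agent.Helper15

variable {n r : ℕ} {N : Fin r → ℕ}

theorem isSymm_map {R S : Type*} [CommRing R] [CommRing S] (f : R →+* S) {M : ℕ}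
    {B : Matrix (Fin M) (Fin M) R} (hB : B.IsSymm) : (B.map f).IsSymm := by
  ext i j
  rw [Matrix.transpose_apply, Matrix.map_apply, Matrix.map_apply, hB.apply]

/-- values of a homomorphism on the old and the new variables -/
theorem exists_rho {K : Type} [Field K] {R : Type} [CommRing R] [Algebra K R]
    (g : MvPolynomial (Fin n) K →ₐ[K] R) (val : ∀ i : Fin r, Fin 3 → Fin (N i) → R) :
    ∃ ρ : MvPolynomial (Fin (vn N + n)) K →ₐ[K] R,
      (∀ x, ρ (inc n N K x) = g x) ∧ ∀ i c j, ρ (gv n N K i c j) = val i c j := by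
  refine ⟨MvPolynomial.aeval (fun m : Fin (vn N + n) => Fin.addCases
    (fun s => val ((Fintype.equivFin (VI N)).symm s).1 ((Fintype.equivFin (VI N)).symm s).2.1
      ((Fintype.equivFin (VI N)).symm s).2.2) (fun j => g (MvPolynomial.X j)) m), ?_, ?_⟩
  · intro x
    have h1 : (MvPolynomial.aeval (fun m : Fin (vn N + n) => (Fin.addCases
      (fun s => val ((Fintype.equivFin (VI N)).symm s).1 ((Fintype.equivFin (VI N)).symm s).2.1
        ((Fintype.equivFin (VI N)).symm s).2.2) (fun j => g (MvPolynomial.X j)) m : R))).comp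
        (inc n N K) = g := by
      refine MvPolynomial.algHom_ext fun j => ?_
      rw [AlgHom.comp_apply]
      unfold inc
      rw [MvPolynomial.rename_X, MvPolynomial.aeval_X]
      exact Fin.addCases_right _
    exact congrArg (fun f : MvPolynomial (Fin n) K →ₐ[K] R => f x) h1
  · intro i c j
    unfold gv
    rw [MvPolynomial.aeval_X]
    unfold vix
    rw [Fin.addCases_left, Equiv.symm_apply_apply]

/-- P7c for rings given by their universal properties -/
theorem dominated_core {K A E R C : Type} [Field K] [CommRing A] [Algebra K A] [CommRing E]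
    [Algebra K E] [CommRing R] [Algebra K R] [Algebra A R] [IsScalarTower K A R] [CommRing C]
    [Algebra K C] [Algebra E C] [IsScalarTower K E C] [Nontrivial R] (ι : A →ₐ[K] E) (δ : A)
    (hδR : IsUnit (algebraMap A R δ)) (B : ∀ i : Fin r, Matrix (Fin (N i)) (Fin (N i)) A)
    (hB : ∀ i, (B i).IsSymm) (v : ∀ i : Fin r, Fin 3 → Fin (N i) → A)
    (hv1 : ∀ i, D1 (B i) (v i) ∣ δ) (hv2 : ∀ i, D2 (B i) (v i) ∣ δ)
    (g : ∀ i : Fin r, Fin 3 → Fin (N i) → E)
    (hE : ∀ val : ∀ i : Fin r, Fin 3 → Fin (N i) → R, ∃ ρ : E →+* R,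
      (∀ x, ρ (ι x) = algebraMap A R x) ∧ ∀ i c j, ρ (g i c j) = val i c j)
    (u0 : ∀ i, Fin (N i) → R)
    (hu0 : ∀ i, bil ((B i).map (algebraMap A R)) (u0 i) (u0 i) = 0)
    (liftR : ∀ {S : Type} [CommRing S] (f : A →+* S), IsUnit (f δ) → ∀ u : ∀ i, Fin (N i) → S,
      (∀ i, bil ((B i).map f) (u i) (u i) = 0) → ∃ φ : R →+* S,
        (∀ x, φ (algebraMap A R x) = f x) ∧ ∀ i j, φ (u0 i j) = u i j)
    (extR : ∀ f g : R →+* R, (∀ x : A, f (algebraMap A R x) = g (algebraMap A R x)) →
      (∀ i j, f (u0 i j) = g (u0 i j)) → f = g)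
    (a b : Fin r → E) (ha : ∀ i, a i = qa ((B i).map ι) (g i))
    (hb : ∀ i, b i = qb ((B i).map ι) (g i)) (p s : Fin r → C)
    (hps : ∀ i, p i ^ 2 = algebraMap E C (a i) * s i ^ 2 + algebraMap E C (b i))
    (liftC : ∀ {S : Type} [CommRing S] (f : E →+* S) (x y : Fin r → S),
      (∀ i, x i ^ 2 = f (a i) * y i ^ 2 + f (b i)) → ∃ θ : C →+* S,
        (∀ e, θ (algebraMap E C e) = f e) ∧ (∀ i, θ (p i) = x i) ∧ ∀ i, θ (s i) = y i) :
    DominatedOver K (Spec (CommRingCat.of R)) (Spec (CommRingCat.of C))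
      (Spec.map (CommRingCat.ofHom (algebraMap K R)))
      (Spec.map (CommRingCat.ofHom (algebraMap K C))) := by
  -- the retraction
  have hu1 : ∀ i, IsUnit (D1 ((B i).map (algebraMap A R)) (fun c j => algebraMap A R (v i c j))) := by
    intro i
    rw [← map_D1]
    exact isUnit_of_dvd_unit (map_dvd (algebraMap A R) (hv1 i)) hδR
  have hu2 : ∀ i, IsUnit (D2 ((B i).map (algebraMap A R)) (fun c j => algebraMap A R (v i c j))) := by
    intro i
    rw [← map_D2]
    exact isUnit_of_dvd_unit (map_dvd (algebraMap A R) (hv2 i)) hδR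
  have hex : ∀ i, ∃ (w : Fin (N i) → R) (x y : R),
      x ^ 2 = qa ((B i).map (algebraMap A R)) (![fun j => algebraMap A R (v i 0 j),
        fun j => algebraMap A R (v i 1 j), w]) * y ^ 2 +
        qb ((B i).map (algebraMap A R)) (![fun j => algebraMap A R (v i 0 j),
        fun j => algebraMap A R (v i 1 j), w]) ∧
      upt ((B i).map (algebraMap A R)) (![fun j => algebraMap A R (v i 0 j),
        fun j => algebraMap A R (v i 1 j), w]) x y = u0 i := fun i =>
    Pool.Agent.Helper92.QU.exists_upt _ (isSymm_map _ (hB i)) _ (hu1 i) (hu2 i) _ (hu0 i)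
  choose w x y hxy hup using hex
  obtain ⟨ρ, hρA, hρv⟩ := hE (fun i => ![fun j => algebraMap A R (v i 0 j),
        fun j => algebraMap A R (v i 1 j), w i])
  have hBρ : ∀ i, ((B i).map ι).map ρ = (B i).map (algebraMap A R) := by
    intro i
    ext j k
    rw [Matrix.map_apply, Matrix.map_apply, Matrix.map_apply, hρA]
  have hρa : ∀ i, ρ (a i) = qa ((B i).map (algebraMap A R)) (![fun j => algebraMap A R (v i 0 j),
        fun j => algebraMap A R (v i 1 j), w i]) := by
    intro i
    rw [ha, map_qa, hBρ]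
    congr 1
    funext c j
    exact hρv i c j
  have hρb : ∀ i, ρ (b i) = qb ((B i).map (algebraMap A R)) (![fun j => algebraMap A R (v i 0 j),
        fun j => algebraMap A R (v i 1 j), w i]) := by
    intro i
    rw [hb, map_qb, hBρ]
    congr 1
    funext c j
    exact hρv i c j
  obtain ⟨θ1, hθE, hθp, hθs⟩ := liftC ρ x y (fun i => by rw [hρa, hρb]; exact hxy i)
  have hunit : IsUnit (θ1 (algebraMap E C (ι δ))) := by
    rw [hθE, hρA]
    exact hδR
  obtain ⟨θ, hθ⟩ : ∃ θ : Localization.Away (algebraMap E C (ι δ)) →+* R,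
      ∀ c, θ (algebraMap C _ c) = θ1 c :=
    ⟨IsLocalization.Away.lift (algebraMap E C (ι δ)) hunit,
      fun c => IsLocalization.Away.lift_eq (algebraMap E C (ι δ)) hunit c⟩
  -- the section
  obtain ⟨f, hf⟩ : ∃ f : E →+* Localization.Away (algebraMap E C (ι δ)),
      ∀ e, f e = algebraMap C _ (algebraMap E C e) :=
    ⟨(algebraMap C _).comp (algebraMap E C), fun e => rfl⟩
  have hfa : ∀ i, f (a i) = qa ((B i).map (f.comp (ι : A →+* E))) (fun c j => f (g i c j)) := by
    intro i
    rw [ha, map_qa]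
    rfl
  have hfb : ∀ i, f (b i) = qb ((B i).map (f.comp (ι : A →+* E))) (fun c j => f (g i c j)) := by
    intro i
    rw [hb, map_qb]
    rfl
  obtain ⟨φ1, hφA, hφu⟩ := liftR (f.comp (ι : A →+* E)) (by
      show IsUnit (f (ι δ))
      rw [hf]
      exact IsLocalization.Away.algebraMap_isUnit (algebraMap E C (ι δ)))
    (fun i => upt ((B i).map (f.comp (ι : A →+* E))) (fun c j => f (g i c j))
      (algebraMap C _ (p i)) (algebraMap C _ (s i))) (fun i => by
      rw [Pool.Agent.Helper92.QU.bil_upt _ (isSymm_map _ (hB i)), ← hfa, ← hfb, hf, hf]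
      have h5 := congrArg (algebraMap C (Localization.Away (algebraMap E C (ι δ)))) (hps i)
      rw [map_add, map_mul, map_pow, map_pow] at h5
      rw [h5]
      ring)
  let φ : R →ₐ[K] Localization.Away (algebraMap E C (ι δ)) :=
    { φ1 with
      commutes' := fun k => by
        show φ1 (algebraMap K R k) = _
        rw [IsScalarTower.algebraMap_apply K A R k, hφA]
        show f (ι (algebraMap K A k)) = _
        rw [ι.commutes, hf, ← IsScalarTower.algebraMap_apply K E C k,
          ← IsScalarTower.algebraMap_apply K C (Localization.Away (algebraMap E C (ι δ))) k] }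
  have hθf : ∀ e, θ (f e) = ρ e := fun e => by rw [hf, hθ, hθE]
  have hBθ : ∀ i, ((B i).map (f.comp (ι : A →+* E))).map θ = (B i).map (algebraMap A R) := by
    intro i
    ext j k
    rw [Matrix.map_apply, Matrix.map_apply, Matrix.map_apply]
    show θ (f (ι (B i j k))) = _
    rw [hθf, hρA]
  have hcomp : θ.comp φ1 = RingHom.id R := by
    refine extR _ _ (fun x => ?_) fun i j => ?_
    · show θ (φ1 (algebraMap A R x)) = algebraMap A R x
      rw [hφA]
      show θ (f (ι x)) = _
      rw [hθf, hρA]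
    · show θ (φ1 (u0 i j)) = u0 i j
      rw [hφu, map_upt, hBθ, hθ, hθ, hθp, hθs, ← congrFun (hup i) j]
      congr 1
      funext c j
      rw [hθf]
      exact hρv i c j
  exact Pool.Agent.Helper33.CB.dominatedOver_of_retract K R C
    (Localization.Away (algebraMap E C (ι δ))) (algebraMap E C (ι δ)) φ θ
    (fun x => congrArg (fun f : R →+* R => f x) hcomp)

/-- **P7c.** -/
theorem dominated {K : Type} [Field K] [CharZero K]
    (B : ∀ i : Fin r, Matrix (Fin (N i)) (Fin (N i)) (MvPolynomial (Fin n) K))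
    (hB : ∀ i, (B i).IsSymm) (v : ∀ i : Fin r, Fin 3 → Fin (N i) → K)
    (δ : MvPolynomial (Fin n) K)
    (hδ : δ = ∏ i, D1 (B i) (fun c j => MvPolynomial.C (v i c j)) *
      D2 (B i) (fun c j => MvPolynomial.C (v i c j))) (hδ0 : δ ≠ 0) :
    DominatedOver K (Spec (CommRingCat.of (QRing B δ)))
      (Spec (CommRingCat.of (CRing (aQ N B) (bQ N B))))
      (Spec.map (CommRingCat.ofHom (algebraMap K (QRing B δ))))
      (Spec.map (CommRingCat.ofHom (algebraMap K (CRing (aQ N B) (bQ N B))))) := by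
  have hnt := qring_nontrivial B δ hδ0
  have hδR : IsUnit (algebraMap (MvPolynomial (Fin n) K) (QRing B δ) δ) := by
    rw [IsScalarTower.algebraMap_apply (MvPolynomial (Fin n) K) (Localization.Away δ) (QRing B δ)]
    exact (IsLocalization.Away.algebraMap_isUnit (S := Localization.Away δ) δ).map
      (algebraMap (Localization.Away δ) (QRing B δ))
  have hdiv : ∀ i, D1 (B i) (fun c j => MvPolynomial.C (v i c j)) *
      D2 (B i) (fun c j => MvPolynomial.C (v i c j)) ∣ δ := by
    intro i
    rw [hδ]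
    exact Finset.dvd_prod_of_mem (fun i => D1 (B i) (fun c j => MvPolynomial.C (v i c j)) *
      D2 (B i) (fun c j => MvPolynomial.C (v i c j))) (Finset.mem_univ i)
  exact dominated_core (inc n N K) δ hδR B hB (fun i c j => MvPolynomial.C (v i c j))
    (fun i => (Dvd.intro _ rfl).trans (hdiv i)) (fun i => (Dvd.intro_left _ rfl).trans (hdiv i))
    (gv n N K) (fun val => by
      obtain ⟨ρ, h1, h2⟩ := exists_rho (N := N) (R := QRing B δ)
        (IsScalarTower.toAlgHom K (MvPolynomial (Fin n) K) (QRing B δ)) val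
      exact ⟨ρ, h1, h2⟩)
    (fun i j => Ideal.Quotient.mk _ (MvPolynomial.X ⟨i, j⟩)) (qring_rel B δ)
    (fun f hf u hu => qring_lift B δ f hf u hu) (fun f g h1 h2 => qring_ext B δ f g h1 h2)
    (aQ N B) (bQ N B) (fun i => rfl) (fun i => rfl)
    (fun i => Ideal.Quotient.mk _ (MvPolynomial.X (i, 0)))
    (fun i => Ideal.Quotient.mk _ (MvPolynomial.X (i, 1)))
    (fun i => cring_rel (aQ N B) (bQ N B) i)
    (fun f x y h => cring_lift (aQ N B) (bQ N B) f x y h)

end Pool.Agent.Helper33.QU
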