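import Pool.Agent.Helper49.QU.Defs

/-! T-QUAD: functoriality of the Gram minors and ring homomorphisms out of the coordinate rings. -/

set_option autoImplicit false

namespace Pool.Agent.Helper33.QU

open Matrix Pool.Agent.Helper49.QU

section Func

variable {R S : Type*} [CommRing R] [CommRing S] (f : R →+* S) {M : ℕ}
  (B : Matrix (Fin M) (Fin M) R)

theorem map_bil (v w : Fin M → R) :
    f (bil B v w) = bil (B.map f) (fun j => f (v j)) (fun j => f (w j)) := by
  unfold bil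
  rw [map_sum]
  refine Finset.sum_congr rfl fun j _ => ?_
  rw [map_sum]
  refine Finset.sum_congr rfl fun k _ => ?_
  rw [map_mul, map_mul, Matrix.map_apply]

variable (v : Fin 3 → Fin M → R)

theorem map_D1 : f (D1 B v) = D1 (B.map f) (fun c j => f (v c j)) := map_bil f B _ _

theorem map_D2 : f (D2 B v) = D2 (B.map f) (fun c j => f (v c j)) := by
  unfold D2
  simp only [map_sub, map_mul, map_pow, map_bil f B]

theorem map_D3 : f (D3 B v) = D3 (B.map f) (fun c j => f (v c j)) := by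
  unfold D3
  rw [RingHom.map_det]
  congr 1
  ext c d
  exact map_bil f B _ _

theorem map_qa : f (qa B v) = qa (B.map f) (fun c j => f (v c j)) := by
  unfold qa
  rw [map_neg, map_D2]

theorem map_qb : f (qb B v) = qb (B.map f) (fun c j => f (v c j)) := by
  unfold qb
  rw [map_neg, map_mul, map_mul, map_D1, map_D2, map_D3]

theorem map_upt (x y : R) (j : Fin M) :
    f (upt B v x y j) = upt (B.map f) (fun c j => f (v c j)) (f x) (f y) j := by
  unfold upt
  simp only [map_sub, map_add, map_mul, map_bil f B, map_D1 f B, map_D2 f B]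

end Func

section Rings

variable {K : Type} [Field K] {n r : ℕ} {N : Fin r → ℕ}

/-- the tautological point is isotropic -/
theorem qring_rel (B : ∀ i : Fin r, Matrix (Fin (N i)) (Fin (N i)) (MvPolynomial (Fin n) K))
    (δ : MvPolynomial (Fin n) K) (i : Fin r) :
    bil ((B i).map (algebraMap (MvPolynomial (Fin n) K) (QRing B δ)))
      (fun j => (Ideal.Quotient.mk _ (MvPolynomial.X ⟨i, j⟩) : QRing B δ))
      (fun j => Ideal.Quotient.mk _ (MvPolynomial.X ⟨i, j⟩)) = 0 := by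
  have h1 : (∑ j, ∑ k, MvPolynomial.C (algebraMap _ (Localization.Away δ)
      (B i j k)) * MvPolynomial.X (⟨i, j⟩ : Σ i : Fin r, Fin (N i)) *
        MvPolynomial.X (⟨i, k⟩ : Σ i : Fin r, Fin (N i)) :
        MvPolynomial (Σ i : Fin r, Fin (N i)) (Localization.Away δ)) ∈ Ideal.span
    (Set.range fun i : Fin r => ∑ j, ∑ k, MvPolynomial.C (algebraMap _ (Localization.Away δ)
      (B i j k)) * MvPolynomial.X (⟨i, j⟩ : Σ i : Fin r, Fin (N i)) *
        MvPolynomial.X (⟨i, k⟩ : Σ i : Fin r, Fin (N i))) := Ideal.subset_span ⟨i, rfl⟩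
  rw [← Ideal.Quotient.eq_zero_iff_mem, map_sum] at h1
  rw [← h1]
  unfold bil
  refine Finset.sum_congr rfl fun j _ => ?_
  rw [map_sum]
  refine Finset.sum_congr rfl fun k _ => ?_
  rw [map_mul, map_mul, Matrix.map_apply]
  have h2 : algebraMap (MvPolynomial (Fin n) K) (QRing B δ) (B i j k) =
    Ideal.Quotient.mk _ (MvPolynomial.C (algebraMap _ (Localization.Away δ) (B i j k))) := rfl
  rw [h2]
  ring

/-- homomorphisms out of `QRing` -/
theorem qring_lift {S : Type} [CommRing S]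
    (B : ∀ i : Fin r, Matrix (Fin (N i)) (Fin (N i)) (MvPolynomial (Fin n) K))
    (δ : MvPolynomial (Fin n) K) (g : MvPolynomial (Fin n) K →+* S) (hg : IsUnit (g δ))
    (u : ∀ i, Fin (N i) → S) (hu : ∀ i, bil ((B i).map g) (u i) (u i) = 0) :
    ∃ φ : QRing B δ →+* S, (∀ x, φ (algebraMap (MvPolynomial (Fin n) K) (QRing B δ) x) = g x) ∧
      ∀ i j, φ (Ideal.Quotient.mk _ (MvPolynomial.X ⟨i, j⟩)) = u i j := by
  obtain ⟨lB, hlB⟩ : ∃ lB : Localization.Away δ →+* S, ∀ x, lB (algebraMap _ _ x) = g x :=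
    ⟨IsLocalization.Away.lift δ hg, fun x => IsLocalization.Away.lift_eq δ hg x⟩
  obtain ⟨φ0, hφC, hφX⟩ : ∃ φ0 : MvPolynomial (Σ i, Fin (N i)) (Localization.Away δ) →+* S,
      (∀ c, φ0 (MvPolynomial.C c) = lB c) ∧ ∀ m, φ0 (MvPolynomial.X m) = u m.1 m.2 :=
    ⟨MvPolynomial.eval₂Hom lB (fun m => u m.1 m.2), fun c => MvPolynomial.eval₂Hom_C _ _ _,
      fun m => MvPolynomial.eval₂Hom_X' _ _ _⟩
  have hker : ∀ p ∈ Ideal.span
    (Set.range fun i : Fin r => ∑ j, ∑ k, MvPolynomial.C (algebraMap _ (Localization.Away δ)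
      (B i j k)) * MvPolynomial.X (⟨i, j⟩ : Σ i : Fin r, Fin (N i)) *
        MvPolynomial.X (⟨i, k⟩ : Σ i : Fin r, Fin (N i))), φ0 p = 0 := by
    intro p hp
    refine (Ideal.span_le (I := RingHom.ker φ0)).2 ?_ hp
    rintro _ ⟨i, rfl⟩
    show φ0 (∑ j, ∑ k, MvPolynomial.C (algebraMap _ (Localization.Away δ)
      (B i j k)) * MvPolynomial.X (⟨i, j⟩ : Σ i : Fin r, Fin (N i)) *
        MvPolynomial.X (⟨i, k⟩ : Σ i : Fin r, Fin (N i))) = 0
    rw [← hu i, map_sum]
    unfold bil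
    refine Finset.sum_congr rfl fun j _ => ?_
    rw [map_sum]
    refine Finset.sum_congr rfl fun k _ => ?_
    rw [map_mul, map_mul, hφC, hφX, hφX, hlB, Matrix.map_apply]
    ring
  refine ⟨Ideal.Quotient.lift _ φ0 hker, fun x => ?_, fun i j => ?_⟩
  · have h2 : algebraMap (MvPolynomial (Fin n) K) (QRing B δ) x =
      Ideal.Quotient.mk _ (MvPolynomial.C (algebraMap _ (Localization.Away δ) x)) := rfl
    rw [h2, Ideal.Quotient.lift_mk, hφC, hlB]
  · rw [Ideal.Quotient.lift_mk, hφX]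

/-- two homomorphisms out of `QRing` -/
theorem qring_ext {S : Type} [CommRing S]
    (B : ∀ i : Fin r, Matrix (Fin (N i)) (Fin (N i)) (MvPolynomial (Fin n) K))
    (δ : MvPolynomial (Fin n) K) (f g : QRing B δ →+* S)
    (h1 : ∀ x, f (algebraMap (MvPolynomial (Fin n) K) (QRing B δ) x) =
      g (algebraMap (MvPolynomial (Fin n) K) (QRing B δ) x))
    (h2 : ∀ i j, f (Ideal.Quotient.mk _ (MvPolynomial.X ⟨i, j⟩)) =
      g (Ideal.Quotient.mk _ (MvPolynomial.X ⟨i, j⟩))) : f = g := by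
  refine Ideal.Quotient.ringHom_ext (MvPolynomial.ringHom_ext (fun c => ?_) fun m => ?_)
  · have h3 : f.comp (algebraMap (Localization.Away δ) (QRing B δ)) =
        g.comp (algebraMap (Localization.Away δ) (QRing B δ)) :=
      IsLocalization.ringHom_ext (Submonoid.powers δ) (RingHom.ext h1)
    exact congrArg (fun f : Localization.Away δ →+* S => f c) h3
  · exact h2 m.1 m.2

/-- homomorphisms out of `CRing` -/
theorem cring_lift {m : ℕ} {S : Type} [CommRing S] (a b : Fin r → MvPolynomial (Fin m) K)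
    (g : MvPolynomial (Fin m) K →+* S) (x y : Fin r → S)
    (h : ∀ i, x i ^ 2 = g (a i) * y i ^ 2 + g (b i)) :
    ∃ θ : CRing a b →+* S, (∀ e, θ (algebraMap (MvPolynomial (Fin m) K) (CRing a b) e) = g e) ∧
      (∀ i, θ (Ideal.Quotient.mk _ (MvPolynomial.X (i, 0))) = x i) ∧
      ∀ i, θ (Ideal.Quotient.mk _ (MvPolynomial.X (i, 1))) = y i := by
  obtain ⟨θ0, hC, hX0, hX1⟩ : ∃ θ0 : MvPolynomial (Fin r × Fin 2) (MvPolynomial (Fin m) K) →+* S,
      (∀ c, θ0 (MvPolynomial.C c) = g c) ∧ (∀ i, θ0 (MvPolynomial.X (i, 0)) = x i) ∧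
        ∀ i, θ0 (MvPolynomial.X (i, 1)) = y i :=
    ⟨MvPolynomial.eval₂Hom g (fun l => if l.2 = 0 then x l.1 else y l.1),
      fun c => MvPolynomial.eval₂Hom_C _ _ _,
      fun i => by rw [MvPolynomial.eval₂Hom_X']; exact if_pos rfl,
      fun i => by rw [MvPolynomial.eval₂Hom_X']; exact if_neg (show ¬ (1 : Fin 2) = 0 by decide)⟩
  have hker : ∀ p ∈ Ideal.span
    (Set.range fun i : Fin r => (MvPolynomial.X (i, 0) ^ 2 -
        MvPolynomial.C (a i) * MvPolynomial.X (i, 1) ^ 2 - MvPolynomial.C (b i) :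
        MvPolynomial (Fin r × Fin 2) (MvPolynomial (Fin m) K))), θ0 p = 0 := by
    intro p hp
    refine (Ideal.span_le (I := RingHom.ker θ0)).2 ?_ hp
    rintro _ ⟨i, rfl⟩
    show θ0 (MvPolynomial.X (i, 0) ^ 2 -
        MvPolynomial.C (a i) * MvPolynomial.X (i, 1) ^ 2 - MvPolynomial.C (b i)) = 0
    rw [map_sub, map_sub, map_mul, map_pow, map_pow, hX0, hX1, hC, hC, h]
    ring
  refine ⟨Ideal.Quotient.lift _ θ0 hker, fun e => ?_, fun i => ?_, fun i => ?_⟩
  · have h2 : algebraMap (MvPolynomial (Fin m) K) (CRing a b) e =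
      Ideal.Quotient.mk _ (MvPolynomial.C e) := rfl
    rw [h2, Ideal.Quotient.lift_mk, hC]
  · rw [Ideal.Quotient.lift_mk, hX0]
  · rw [Ideal.Quotient.lift_mk, hX1]

/-- the point of the conic -/
theorem cring_rel {m : ℕ} (a b : Fin r → MvPolynomial (Fin m) K) (i : Fin r) :
    (Ideal.Quotient.mk _ (MvPolynomial.X (i, 0)) : CRing a b) ^ 2 =
      algebraMap (MvPolynomial (Fin m) K) (CRing a b) (a i) *
        Ideal.Quotient.mk _ (MvPolynomial.X (i, 1)) ^ 2 +
        algebraMap (MvPolynomial (Fin m) K) (CRing a b) (b i) := by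
  have h1 : (MvPolynomial.X (i, 0) ^ 2 -
        MvPolynomial.C (a i) * MvPolynomial.X (i, 1) ^ 2 - MvPolynomial.C (b i) :
        MvPolynomial (Fin r × Fin 2) (MvPolynomial (Fin m) K)) ∈ Ideal.span
    (Set.range fun i : Fin r => (MvPolynomial.X (i, 0) ^ 2 -
        MvPolynomial.C (a i) * MvPolynomial.X (i, 1) ^ 2 - MvPolynomial.C (b i) :
        MvPolynomial (Fin r × Fin 2) (MvPolynomial (Fin m) K))) := Ideal.subset_span ⟨i, rfl⟩
  rw [← Ideal.Quotient.eq_zero_iff_mem, map_sub, map_sub, map_mul, map_pow, map_pow] at h1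
  have h2 : ∀ e, algebraMap (MvPolynomial (Fin m) K) (CRing a b) e =
      Ideal.Quotient.mk _ (MvPolynomial.C e) := fun e => rfl
  rw [h2, h2]
  linear_combination h1

theorem qring_nontrivial
    (B : ∀ i : Fin r, Matrix (Fin (N i)) (Fin (N i)) (MvPolynomial (Fin n) K))
    (δ : MvPolynomial (Fin n) K) (hδ : δ ≠ 0) : Nontrivial (QRing B δ) := by
  obtain ⟨φ, -, -⟩ := qring_lift B δ (algebraMap _ (FractionRing (MvPolynomial (Fin n) K)))
    (IsUnit.mk0 _ (by
      rwa [Ne, map_eq_zero_iff _ (IsFractionRing.injective (MvPolynomial (Fin n) K)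
        (FractionRing (MvPolynomial (Fin n) K)))]))
    (fun _ _ => 0) (fun i => by simp [bil])
  exact φ.domain_nontrivial

end Rings

end Pool.Agent.Helper33.QU
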